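import Pool.Agent.Helper1.T5g.ZDefs

/-!
# T5g (MP_12a1af), lines 6 and 7: the hits (`HitS` of `Helper1.T5b.ZDefs`)
-/

set_option autoImplicit false

namespace Pool.Agent.Helper55.T5g

open Finset
open Pool.Agent.Helper5.ET hiding Key Mk AA Rp keysOf el ext
open Pool.Agent.Helper27.T4
open Pool.Agent.Helper27.T5g hiding FF_pos dvd_cs cs_lt QQ_eq_NN c0_lt Jn_pos
open Pool.Agent.Helper37.T5g
open Pool.Agent.Helper30.T5g hiding pz_prime pz_inj NL_pos
open Pool.Agent.Helper22.HW Pool.Agent.Helper22.SL Pool.Agent.Helper57.T5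
open Pool.Agent.Helper39.T5 Pool.Agent.Helper50.T5
open Pool.Agent.Helper84.T5g Pool.Agent.Helper44.T5 Pool.Agent.Helper44.T5g Pool.Agent.Helper44.T5b
open Pool.Agent.Helper22.NEARg Pool.Agent.Helper75.T5 Pool.Agent.Helper1.T5
open Pool.Agent.Helper1.T5g

variable {m : Sq} {k : ℕ}

/-! ## general facts about data of levels -/

section Gen

variable {κ : Type*}

/-- one component of a code -/
def Cmp (p z c y W : ℕ) : Prop := ((c : ℕ) : ZMod (p ^ z)) = Lg p z y + ((W : ℕ) : ZMod (p ^ z))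

/-- two systems with the same data of a level -/
theorem Lok_transfer {P P0 : Pr κ} {w : κ → ℕ} {N N' : Finset (Fin 3)} {r r0 t : ℕ} {ℓ : Lv}
    (hp : P0.p r0 = P.p r) (hz : P0.z r0 = P.z r) (hY : P0.Y r0 = P.Y r)
    (hF : P0.F (r0 + 1) = P.F (r + 1)) (hF' : P0.F' (r0 + 1) = P.F' (r + 1))
    (hL : P0.L r0 = P.L r) (hL1 : P0.L (r0 + 1) = P.L (r + 1)) (hM : P0.M' = P.M')
    (hk : P0.key r0 = P.key r) (hk' : P0.key' r0 = P.key' r)
    (h : Lok P w N N' r t ℓ) : Lok P0 w N N' r0 t ℓ where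
  y := by rw [hY]; exact h.y
  y' := by rw [hY]; exact h.y'
  lt := by rw [hF, hL1]; exact h.lt
  lt' := by rw [hF', hL1]; exact h.lt'
  dvd := by rw [hF, hL]; exact h.dvd
  dvd' := by rw [hF', hL]; exact h.dvd'
  cmp := by
    intro i hi
    show Cmp (P0.p r0 i) (P0.z r0 i) ℓ.2.1 (ℓ.1.1 i) (w (P0.key r0 i ℓ.1.1))
    rw [hp, hz, hk]
    exact h.cmp i hi
  cmp' := by
    intro i hi
    show Cmp (P0.p r0 i) (P0.z r0 i) ℓ.2.2 (ℓ.1.2 i) (w (P0.key' r0 i ℓ.1.2))
    rw [hp, hz, hk']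
    exact h.cmp' i hi
  le := h.le
  tdvd := by rw [hM, hL1]; exact h.tdvd

/-- the facts about the codes of one level -/
structure CdOk (P : Pr κ) (w : κ → ℕ) (c c' : ℕ → (Fin 3 → ℕ) → ℕ) (r : ℕ) : Prop where
  lt : ∀ y, c r y < P.F (r + 1) * P.L (r + 1)
  lt' : ∀ y, c' r y < P.F' (r + 1) * P.L (r + 1)
  dvd : ∀ y, P.F (r + 1) * P.L r ∣ c r y
  dvd' : ∀ y, P.F' (r + 1) * P.L r ∣ c' r y
  cmp : ∀ y i, Cmp (P.p r i) (P.z r i) (c r y) (y i) (w (P.key r i y))
  cmp' : ∀ y i, Cmp (P.p r i) (P.z r i) (c' r y) (y i) (w (P.key' r i y))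

theorem L_dvd' (P : Pr κ) {r s : ℕ} (h : r ≤ s) : P.L r ∣ P.L s :=
  Nat.mul_dvd_mul_left _ (Finset.prod_dvd_prod_of_subset _ _ _ (range_subset_range.2 h))

/-- the targets of the data of codes -/
theorem TT_data (c c' : ℕ → (Fin 3 → ℕ) → ℕ) (y y' : ℕ → Fin 3 → ℕ) {h T X : ℕ}
    (hX : X = ∑ r ∈ range h, (c r (y r) + c' r (y' r)) + T) :
    ∀ r ≤ h, TT (fun _ => X) (0, fun r => ((y r, y' r), (c r (y r), c' r (y' r)))) r =
      ∑ s ∈ Ico r h, (c s (y s) + c' s (y' s)) + T := by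
  intro r
  induction r with
  | zero =>
    intro _
    show X = _
    rw [hX, ← Finset.range_eq_Ico]
  | succ r ih =>
    intro hr
    show TT (fun _ => X) (0, fun r => ((y r, y' r), (c r (y r), c' r (y' r)))) r -
      (c r (y r) + c' r (y' r)) = _
    rw [ih (by omega), Finset.sum_eq_sum_Ico_succ_bot (by omega : r < h)]
    omega

/-- a sum of codes and windows is hit -/
theorem hitT_of {P : Pr κ} {w : κ → ℕ} {c c' : ℕ → (Fin 3 → ℕ) → ℕ}
    (hc : ∀ r < P.h, CdOk P w c c' r) (hMM : P.M' ∣ P.M)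
    (hMF : ∀ r < P.h, P.M' ∣ P.F (r + 1)) (hMF' : ∀ r < P.h, P.M' ∣ P.F' (r + 1))
    {y y' : ℕ → Fin 3 → ℕ} (hy : ∀ r < P.h, y r ∈ P.Y r) (hy' : ∀ r < P.h, y' r ∈ P.Y r)
    {B B' : Finset ℕ} {b b' : ℕ} (hb : b ∈ B) (hb' : b' ∈ B') {X : ℕ}
    (hX : X = ∑ r ∈ range P.h, (c r (y r) + c' r (y' r)) +
      (P.M * P.L P.h * b + P.M' * P.L P.h * b')) : HitT P w B B' X := by
  have hTT := TT_data c c' y y' hX
  refine ⟨fun r => ((y r, y' r), (c r (y r), c' r (y' r))), b, b', ?_, hb, hb', ?_⟩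
  · intro t ht
    have h := hc t ht
    have e1 := hTT t (by omega)
    have e2 := hTT (t + 1) (by omega)
    rw [Finset.sum_eq_sum_Ico_succ_bot ht] at e1
    have e3 : TT (fun _ => X) (0, fun r => ((y r, y' r), (c r (y r), c' r (y' r)))) t -
        (c t (y t) + c' t (y' t)) =
        ∑ s ∈ Ico (t + 1) P.h, (c s (y s) + c' s (y' s)) +
        (P.M * P.L P.h * b + P.M' * P.L P.h * b') := e2
    refine ⟨hy t ht, hy' t ht, h.lt _, h.lt' _, h.dvd _, h.dvd' _, fun i _ => h.cmp _ i,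
      fun i _ => h.cmp' _ i, ?_, ?_⟩
    · show c t (y t) + c' t (y' t) ≤ TT (fun _ => X) _ t
      rw [e1]
      omega
    · show P.M' * P.L (t + 1) ∣ TT (fun _ => X) _ t - (c t (y t) + c' t (y' t))
      rw [e3]
      refine dvd_add (Finset.dvd_sum (fun s hs => ?_)) (dvd_add ?_ ?_)
      · have hs' := mem_Ico.1 hs
        refine dvd_add ?_ ?_
        · exact (Nat.mul_dvd_mul (hMF s hs'.2) (L_dvd' P hs'.1)).trans ((hc s hs'.2).dvd _)
        · exact (Nat.mul_dvd_mul (hMF' s hs'.2) (L_dvd' P hs'.1)).trans ((hc s hs'.2).dvd' _)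
      · exact (Nat.mul_dvd_mul hMM (L_dvd' P ht)).trans (dvd_mul_right _ _)
      · exact (Nat.mul_dvd_mul_left _ (L_dvd' P ht)).trans (dvd_mul_right _ _)
  · show P.M * P.L P.h * b + P.M' * P.L P.h * b' = TT (fun _ => X) _ P.h
    rw [hTT P.h le_rfl, Finset.Ico_self, Finset.sum_empty, zero_add]

/-- a target which is hit is a multiple of `M' L0` -/
theorem HitT_dvd' {P : Pr κ} {w : κ → ℕ} {B B' : Finset ℕ} {t : ℕ} (h : HitT P w B B' t)
    (hMM : P.M' ∣ P.M) (hMF : 0 < P.h → P.M' ∣ P.F 1) (hMF' : 0 < P.h → P.M' ∣ P.F' 1) :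
    P.M' * P.L0 ∣ t := by
  obtain ⟨d, b, b', h1, h2, h3, h4⟩ := h
  have hL0 : P.L 0 = P.L0 := by simp [Pr.L]
  rcases Nat.eq_zero_or_pos P.h with h0 | h0
  · rw [h0] at h4
    have e : TT (fun _ => t) (0, d) 0 = t := rfl
    rw [e, hL0] at h4
    rw [← h4]
    refine dvd_add ?_ ?_
    · exact Dvd.dvd.mul_right (Nat.mul_dvd_mul_right hMM _) _
    · exact dvd_mul_right _ _
  · have hl := h1 0 h0
    have e : TT (fun _ => t) (0, d) 0 = t := rfl
    rw [e] at hl
    have a1 : P.M' * P.L0 ∣ (d 0).2.1 := by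
      refine dvd_trans ?_ hl.dvd
      rw [hL0]
      exact Nat.mul_dvd_mul_right (hMF h0) _
    have a2 : P.M' * P.L0 ∣ (d 0).2.2 := by
      refine dvd_trans ?_ hl.dvd'
      rw [hL0]
      exact Nat.mul_dvd_mul_right (hMF' h0) _
    have a3 : P.M' * P.L0 ∣ t - ((d 0).2.1 + (d 0).2.2) := by
      refine dvd_trans ?_ hl.tdvd
      refine Nat.mul_dvd_mul_left _ ?_
      rw [← hL0]
      exact L_dvd' P (Nat.zero_le 1)
    have a4 := dvd_add a3 (dvd_add a1 a2)
    rwa [Nat.sub_add_cancel hl.le] at a4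

end Gen

/-! ## the codes -/

theorem L_PO (m : Sq) (k l' l t h F0 : ℕ) (o o' : JF → ℕ) (r : ℕ) :
    (PO m k l' l t h F0 o o').L r = LL (QQ m k (sL m k l)) (t + r) := by
  unfold Pr.L LL
  rw [prod_range_add]
  rfl

/-- the component of the code of a static level -/
theorem cs_cmp {l t : ℕ} (ht : t ≤ sL m k l) (hk : t ≤ k + 1) (w : Key → ℕ) (o : JF → ℕ)
    (y : Fin 3 → ℕ) (i : Fin 3) : Cmp (pz k (sL m k l - t) i) (zf m k (sL m k l - t) i)
      (cs m k l t w o y) (y i) (w ((Ss m k l t o).key i y)) :=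
  fc_cast (pz_prime k _) (pz_inj k _) _ (Ss_ok ht hk o).cop _ _ i

/-- the code of the keyed level -/
theorem cd_OS {l s : ℕ} (hs : sL m k l = s) (w : Key → ℕ) (o : JF → ℕ) (y : Fin 3 → ℕ) :
    (OS m k s (FF m k l 1) l).cd (pz_prime k _) (pz_inj k _) w o y = cs m k l 0 w o y := by
  subst hs
  have h : ∀ F : ℕ, F = FF m k l 1 →
      (⟨F, zf m k (sL m k l), zf m k (sL m k l),
        fun f y => Key.S l 0 f o (mask (univ.filter (fun g => g < f)) y)⟩ :
          Side (pz k (sL m k l)) Key) = (OS m k (sL m k l) (FF m k l 1) l).side o := by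
    intro F hF
    subst hF
    rfl
  unfold cs Ss OSide.cd
  have e : FF m k l (0 + 1) * LL (QQ m k (sL m k l)) 0 = FF m k l 1 := by
    rw [LL_zero, mul_one]
  have h2 := h _ e
  exact congrArg (fun S : Side (pz k (sL m k l)) Key =>
    S.cd (pz_prime k (sL m k l)) (pz_inj k (sL m k l)) w y) h2.symm

/-- the facts about a pair -/
structure Fc (m : Sq) (k l' l : ℕ) : Prop where
  m0 : m.Ok
  le : l' ≤ l
  ss : sL m k l' = sL m k l
  rk : rL m k l ≤ k + 1
  rs : rL m k l ≤ sL m k l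
  rk' : rL m k l' ≤ k + 1
  rs' : rL m k l' ≤ sL m k l'

theorem fc_of {l' l : ℕ} (hm : m.Ok) (hl : l' ≤ l) (hs : Same m k l' l) : Fc m k l' l :=
  ⟨hm, hl, hs, (Pool.Agent.Helper44.T5g.rL_le hm k l).1, (Pool.Agent.Helper44.T5g.rL_le hm k l).2,
    (Pool.Agent.Helper44.T5g.rL_le hm k l').1, (Pool.Agent.Helper44.T5g.rL_le hm k l').2⟩

/-- the code of the lower state in terms of the split levels of the upper state -/
theorem cs_cmp' {l' l t : ℕ} (hf : Fc m k l' l) (ht : t ≤ sL m k l) (hk : t ≤ k + 1)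
    (w : Key → ℕ) (o : JF → ℕ) (y : Fin 3 → ℕ) (i : Fin 3) :
    Cmp (pz k (sL m k l - t) i) (zf m k (sL m k l - t) i)
      (cs m k l' t w o y) (y i) (w ((Ss m k l' t o).key i y)) := by
  have h := cs_cmp (m := m) (k := k) (l := l') (t := t) (by rw [hf.ss]; exact ht) hk w o y i
  have e : sL m k l' = sL m k l := hf.ss
  revert h
  generalize cs m k l' t w o y = c
  generalize w ((Ss m k l' t o).key i y) = W
  intro h
  rw [e] at h
  exact h

theorem cdOk {l' l t h F0 : ℕ} (hf : Fc m k l' l) (o o' : JF → ℕ) (w : Key → ℕ) {r : ℕ}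
    (hr : t + r < rL m k l) : CdOk (PO m k l' l t h F0 o o') w
      (fun r => cs m k l (t + r) w (if t + r = 0 then o else 0))
      (fun r => cs m k l' (t + r) w (if t + r = 0 then o' else 0)) r where
  lt y := by
    have h1 := cs_lt m k l (t + r) w (if t + r = 0 then o else 0) y
    rw [L_PO]
    exact h1
  lt' y := by
    have h1 := cs_lt m k l' (t + r) w (if t + r = 0 then o' else 0) y
    rw [L_PO]
    rw [hf.ss] at h1
    exact h1
  dvd y := by
    have h1 := dvd_cs m k l (t + r) w (if t + r = 0 then o else 0) y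
    rw [L_PO]
    exact h1
  dvd' y := by
    have h1 := dvd_cs m k l' (t + r) w (if t + r = 0 then o' else 0) y
    rw [L_PO]
    rw [hf.ss] at h1
    exact h1
  cmp y i := by
    have h1 := hf.rk
    have h2 := hf.rs
    exact cs_cmp (by omega) (by omega) w _ y i
  cmp' y i := by
    have h1 := hf.rk
    have h2 := hf.rs
    exact cs_cmp' hf (by omega) (by omega) w _ y i

theorem dvd_FF {l' l : ℕ} (hf : Fc m k l' l) (t : ℕ) :
    Jn m k (sL m k l) l' ∣ FF m k l t ∧ Jn m k (sL m k l) l' ∣ FF m k l' t := by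
  constructor
  · exact (Jn_dvd m k _ hf.le).trans (Jn_dvd_FF hf.m0 k l t)
  · have h := Jn_dvd_FF hf.m0 k l' t
    rwa [hf.ss] at h

/-! ## the three parts -/

/-- the elements of the window below the static level `s`, with the unit taken out -/
theorem mem_Bw {l s : ℕ} {w : Key → ℕ} (hm : m.Ok) (hs : s ≤ rL m k l) {u : ℕ}
    (hu : u ∈ Zw m k l s w) : ∃ b ∈ Bw m k l s w,
      Jn m k (sL m k l) l * LL (QQ m k (sL m k l)) s * b = u :=
  ⟨_, mem_image_of_mem _ hu, Nat.mul_div_cancel' (dvd_Zw hm hs hu)⟩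

/-- two elements of the windows below the level `t` -/
theorem hitT_Zw {l' l t h F0 : ℕ} (hf : Fc m k l' l) (ht : 1 ≤ t) (h1 : t + h ≤ rL m k l)
    (h2 : t + h ≤ rL m k l') (o o' : JF → ℕ) (w : Key → ℕ) {u u' : ℕ} (hu : u ∈ Zw m k l t w)
    (hu' : u' ∈ Zw m k l' t w) : HitT (PO m k l' l t h F0 o o') w (Bw m k l (t + h) w)
      (Bw m k l' (t + h) w) (u + u') := by
  obtain ⟨y, hy, v, hv, rfl⟩ := Zw_split h h1 hu
  obtain ⟨y', hy', v', hv', rfl⟩ := Zw_split h h2 hu'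
  obtain ⟨b, hb, rfl⟩ := mem_Bw hf.m0 h1 hv
  obtain ⟨b', hb', rfl⟩ := mem_Bw hf.m0 h2 hv'
  have hd := fun r => dvd_FF hf (t + (r + 1))
  refine hitT_of (P := PO m k l' l t h F0 o o')
    (c := fun r => cs m k l (t + r) w (if t + r = 0 then o else 0))
    (c' := fun r => cs m k l' (t + r) w (if t + r = 0 then o' else 0))
    (fun r hr => ?_) (Jn_dvd m k _ hf.le) (fun r _ => (hd r).1) (fun r _ => (hd r).2)
    (y := y) (y' := y') hy (fun r hr => ?_) hb hb' ?_
  · have hr' : r < h := hr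
    exact cdOk hf o o' w (by omega)
  · have h3 := hy' r hr
    rw [Ys_eq_YsG, hf.ss] at h3
    exact h3
  · rw [L_PO, Finset.sum_add_distrib]
    have e1 : ∑ r ∈ range h, cs m k l (t + r) w 0 (y r) =
        ∑ r ∈ range h, cs m k l (t + r) w (if t + r = 0 then o else 0) (y r) := by
      refine Finset.sum_congr rfl (fun r _ => ?_)
      rw [if_neg (by omega)]
    have e2 : ∑ r ∈ range h, cs m k l' (t + r) w 0 (y' r) =
        ∑ r ∈ range h, cs m k l' (t + r) w (if t + r = 0 then o' else 0) (y' r) := by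
      refine Finset.sum_congr rfl (fun r _ => ?_)
      rw [if_neg (by omega)]
    have e3 : (PO m k l' l t h F0 o o').M = Jn m k (sL m k l) l := rfl
    have e4 : (PO m k l' l t h F0 o o').M' = Jn m k (sL m k l) l' := rfl
    have e5 : (PO m k l' l t h F0 o o').h = h := rfl
    rw [e1, e2, e3, e4, e5, hf.ss]
    ring

/-- constant outer keys -/
theorem hitT_keyed {l' l h F1 F0 : ℕ} (hf : Fc m k l' l) (h1 : 1 + h ≤ rL m k l)
    (o1 o1' o o' : JF → ℕ) (w : Key → ℕ) {y y' : Fin 3 → ℕ} (hy : y ∈ Ys m k l 0)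
    (hy' : y' ∈ Ys m k l 0) {B B' : Finset ℕ} {t X : ℕ}
    (hX : cs m k l 0 w o y + cs m k l' 0 w o' y' + t = X)
    (ht : HitT (PO m k l' l 1 h F1 o1 o1') w B B' t) :
    HitT (PO m k l' l 0 (1 + h) F0 o o') w B B' X := by
  have hd := dvd_FF hf
  have hdv := HitT_dvd' ht (Jn_dvd m k _ hf.le) (fun _ => (hd (1 + 1)).1) (fun _ => (hd (1 + 1)).2)
  obtain ⟨d, b, b', a1, hb, hb', a2⟩ := ht
  set D : ℕ → Lv := fun r => match r with
    | 0 => ((y, y'), (cs m k l 0 w o y, cs m k l' 0 w o' y'))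
    | r + 1 => d r with hD
  have hT : ∀ r, TT (fun _ => X) (0, D) (r + 1) = TT (fun _ => t) (0, d) r := by
    intro r
    induction r with
    | zero =>
      show X - (cs m k l 0 w o y + cs m k l' 0 w o' y') = t
      omega
    | succ r ih =>
      show TT (fun _ => X) (0, D) (r + 1) - ((D (r + 1)).2.1 + (D (r + 1)).2.2) =
        TT (fun _ => t) (0, d) r - ((d r).2.1 + (d r).2.2)
      rw [ih]
  have hc := cdOk (t := 0) (h := 1 + h) (F0 := F0) hf o o' w (r := 0) (by omega)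
  refine ⟨D, b, b', ?_, hb, hb', ?_⟩
  · intro s hs
    rcases s with _ | r
    · refine ⟨hy, hy', hc.lt y, hc.lt' y', hc.dvd y, hc.dvd' y', fun i _ => hc.cmp y i,
        fun i _ => hc.cmp' y' i, ?_, ?_⟩
      · show cs m k l 0 w o y + cs m k l' 0 w o' y' ≤ X
        omega
      · show Jn m k (sL m k l) l' * (PO m k l' l 0 (1 + h) F0 o o').L (0 + 1) ∣
          X - (cs m k l 0 w o y + cs m k l' 0 w o' y')
        rw [L_PO, show X - (cs m k l 0 w o y + cs m k l' 0 w o' y') = t by omega]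
        exact hdv
    · have hr : r < h := by
        have hs' : r + 1 < 1 + h := hs
        omega
      rw [hT r]
      have e : 0 + (r + 1) = 1 + r := by omega
      show Lok (PO m k l' l 0 (1 + h) F0 o o') w univ univ (r + 1) _ (d r)
      refine Lok_transfer (P := PO m k l' l 1 h F1 o1 o1') (r := r) ?_ ?_ ?_ ?_ ?_ ?_ ?_ rfl ?_ ?_
        (a1 r hr)
      · show (fun r => pz k (sL m k l - (0 + r))) (r + 1) = (fun r => pz k (sL m k l - (1 + r))) r
        simp only [e]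
      · show (fun r => zf m k (sL m k l - (0 + r))) (r + 1) =
          (fun r => zf m k (sL m k l - (1 + r))) r
        simp only [e]
      · show (fun r => Ys m k l (0 + r)) (r + 1) = (fun r => Ys m k l (1 + r)) r
        simp only [e]
      · show FF m k l (0 + (r + 1 + 1)) = FF m k l (1 + (r + 1))
        congr 1
        omega
      · show FF m k l' (0 + (r + 1 + 1)) = FF m k l' (1 + (r + 1))
        congr 1
        omega
      · rw [L_PO, L_PO, e]
      · rw [L_PO, L_PO]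
        congr 1
        omega
      · show (Ss m k l (0 + (r + 1)) (if 0 + (r + 1) = 0 then o else 0)).key =
          (Ss m k l (1 + r) (if 1 + r = 0 then o1 else 0)).key
        rw [if_neg (by omega), if_neg (by omega)]
        funext f y
        show Key.S l (0 + (r + 1)) f 0 _ = Key.S l (1 + r) f 0 _
        rw [e]
      · show (Ss m k l' (0 + (r + 1)) (if 0 + (r + 1) = 0 then o' else 0)).key =
          (Ss m k l' (1 + r) (if 1 + r = 0 then o1' else 0)).key
        rw [if_neg (by omega), if_neg (by omega)]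
        funext f y
        show Key.S l' (0 + (r + 1)) f 0 _ = Key.S l' (1 + r) f 0 _
        rw [e]
  · have e1 : (PO m k l' l 0 (1 + h) F0 o o').h = h + 1 := Nat.add_comm 1 h
    rw [e1, hT h, L_PO]
    rw [L_PO] at a2
    have e2 : (PO m k l' l 1 h F1 o1 o1').h = h := rfl
    rw [e2] at a2
    rw [show 0 + (h + 1) = 1 + h by omega]
    exact a2

/-- the parts of an element -/
theorem val_split {l : ℕ} {w : Key → ℕ} (hr : 1 ≤ rL m k l) {p : Par m k l}
    (hp : p ∈ Pm m k l w) : p.1.1 ∈ XJ m k l ∧ ∃ y ∈ Ys m k l 0, ∃ u ∈ Zw m k l 1 w,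
      val m k l w p = c0 m k l w p.1.1 + cs m k l 0 w (okey m k l 0 p.1.1) y + u := by
  obtain ⟨⟨x, y⟩, u⟩ := p
  unfold Pm at hp
  simp only [mem_product, Fintype.mem_piFinset, mem_image] at hp
  obtain ⟨⟨hx, hy⟩, v, hv, rfl⟩ := hp
  refine ⟨hx, ?_⟩
  set Y : ℕ → Fin 3 → ℕ := fun t => if h : t < rL m k l then y ⟨t, h⟩ else 0 with hY
  have hYt : ∀ t : Fin (rL m k l), Y t = y t := by
    intro t
    simp [hY]
  refine ⟨Y 0, ?_, ∑ t ∈ Ico 1 (rL m k l), cs m k l t w 0 (Y t) + Un m k l * v,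
    mem_Zw.2 ⟨Y, fun t _ h2 => ?_, v, hv, rfl⟩, ?_⟩
  · have h3 := hy ⟨0, hr⟩
    rw [← hYt] at h3
    exact h3
  · have h3 := hy ⟨t, h2⟩
    rw [← hYt] at h3
    exact h3
  · unfold Pool.Agent.Helper84.T5g.val el
    simp only
    have h1 : ∑ t : Fin (rL m k l), cs m k l t w (okey m k l t x) (y t) =
        ∑ t ∈ range (rL m k l), cs m k l t w (okey m k l t x) (Y t) := by
      rw [← Fin.sum_univ_eq_sum_range (fun t => cs m k l t w (okey m k l t x) (Y t))]
      exact Finset.sum_congr rfl (fun t _ => by rw [hYt])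
    have h3 : ∑ t ∈ Ico 1 (rL m k l), cs m k l t w 0 (Y t) =
        ∑ t ∈ Ico 1 (rL m k l), cs m k l t w (okey m k l t x) (Y t) := by
      refine Finset.sum_congr rfl (fun t ht => ?_)
      rw [okey_pos (by have := (mem_Ico.1 ht).1; omega)]
    rw [h1, h3, Finset.range_eq_Ico, Finset.sum_eq_sum_Ico_succ_bot hr]
    ring

/-- **Z4** -/
theorem hitS {m : Sq} {k : ℕ} (hm : m.Ok) (hk : 3 ≤ k) : HitS m k := by
  refine ⟨0, fun l' l _ hZ w => ?_⟩
  have hm0 : m.Ok := hm
  have hf := fc_of hm0 hZ.le hZ.same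
  have r1 := rL_bounds hm0 k l
  have r2 := rL_bounds hm0 k l'
  have e2 : sL m k l' = sL m k l := hZ.same
  have e3 := hZ.ble
  have hbh : hz m k l' l ≤ rL m k l := by
    have := hb_le (m := m) (k := k) (t := 0) (l' := l') (l := l) (by omega)
    unfold hz
    omega
  have hbh' : hz m k l' l ≤ rL m k l' := by
    unfold rL at hbh ⊢
    omega
  refine ⟨?_, ?_, ?_⟩
  · intro n q hq
    unfold LbH at hq
    obtain ⟨⟨p, p'⟩, hp, rfl⟩ := mem_image.1 hq
    unfold Hts at hp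
    obtain ⟨hp1, hp2⟩ := mem_filter.1 hp
    obtain ⟨hp3, hp4⟩ := mem_product.1 hp1
    simp only at hp2 hp3 hp4
    obtain ⟨hx, y, hy, u, hu, hv⟩ := val_split (by omega) hp3
    obtain ⟨hx', y', hy', u', hu', hv'⟩ := val_split (by omega) hp4
    have hy'' : y' ∈ Ys m k l 0 := by
      rw [Ys_eq_YsG, e2] at hy'
      exact hy'
    have g1 := cd_OS (m := m) (k := k) (l := l) rfl w (okey m k l 0 p.1.1) y
    have g2 := cd_OS (m := m) (k := k) (l := l') e2 w (okey m k l' 0 p'.1.1) y'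
    have hsum : sJ m k l l' w (p.1.1, p'.1.1) + (cs m k l 0 w (okey m k l 0 p.1.1) y +
        cs m k l' 0 w (okey m k l' 0 p'.1.1) y' + (u + u')) = n := by
      unfold sJ
      rw [← hp2, hv, hv']
      ring
    have hle : sJ m k l l' w (p.1.1, p'.1.1) ≤ n := by omega
    have hsub : n - sJ m k l l' w (p.1.1, p'.1.1) = cs m k l 0 w (okey m k l 0 p.1.1) y +
        cs m k l' 0 w (okey m k l' 0 p'.1.1) y' + (u + u') := by omega
    refine ⟨?_, y, hy, y', hy'', u, hu, u', hu', ?_⟩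
    · unfold LbJ
      refine mem_filter.2 ⟨mem_product.2 ⟨hx, hx'⟩, hle, ?_⟩
      rw [hsub]
      have d1 := dvd_FF hf 1
      refine dvd_add (dvd_add ?_ ?_) (dvd_add ?_ ?_)
      · exact (d1.1.trans (dvd_mul_right _ _)).trans (dvd_cs m k l 0 w _ y)
      · exact (d1.2.trans (dvd_mul_right _ _)).trans (dvd_cs m k l' 0 w _ y')
      · exact ((Jn_dvd m k _ hf.le).trans (dvd_mul_right _ _)).trans
          (dvd_Zw hm0 (by omega) hu)
      · have h5 := dvd_Zw hm0 (k := k) (l := l') (s := 1) (by omega) hu'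
        rw [e2] at h5
        exact (dvd_mul_right _ _).trans h5
    · rw [hsub]
      exact congrArg₂ (· + ·) (congrArg₂ (· + ·) g1 g2) rfl
  · intro h hh u hu u' hu'
    exact hitT_Zw hf le_rfl (by omega) (by omega) 0 0 w hu hu'
  · intro h hh o o' y hy y' hy' B B' t X hX ht
    have g1 := cd_OS (m := m) (k := k) (l := l) rfl w o y
    have g2 := cd_OS (m := m) (k := k) (l := l') e2 w o' y'
    refine hitT_keyed hf (by omega) 0 0 o o' w hy hy' ?_ ht
    rw [← hX]
    exact congrArg₂ (· + ·) (congrArg₂ (· + ·) g1.symm g2.symm) rfl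

end Pool.Agent.Helper55.T5g
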